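import Pool.Agent.Helper94.LG.Sheet

/-!
Project LG, row TV: the tree inequality.
-/

set_option autoImplicit false

namespace H11ST
namespace LG

theorem tv_zero {d : ℕ} (u : E d → ℝ) (t : BT (Fin d) (E d)) :
    (∀ i ∈ t.lv, u (tm d i) = 0) →
    u (t.pos (tm d)) + t.nsum u ≤ t.esum (tm d) (fun a b => |u a - u b|) := by
  induction t with
  | leaf i =>
    intro h
    have h1 : u (tm d i) = 0 := h i (Finset.mem_singleton_self i)
    show u (tm d i) + 0 ≤ 0
    rw [h1, add_zero]
  | node z l r ihl ihr =>
    intro h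
    have hl := ihl fun i hi => h i (Finset.mem_union_left _ hi)
    have hr := ihr fun i hi => h i (Finset.mem_union_right _ hi)
    show u z + (u z + l.nsum u + r.nsum u) ≤
      |u z - u (l.pos (tm d))| + l.esum (tm d) (fun a b => |u a - u b|) +
        (|u z - u (r.pos (tm d))| + r.esum (tm d) (fun a b => |u a - u b|))
    have h1 := le_abs_self (u z - u (l.pos (tm d)))
    have h2 := le_abs_self (u z - u (r.pos (tm d)))
    linarith

theorem tv_one {d : ℕ} (u : E d → ℝ) (j : Fin d) (t : BT (Fin d) (E d)) :
    t.ok → j ∈ t.lv → (∀ i, i ≠ j → u (tm d i) = 0) →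
    u (tm d j) + t.nsum u ≤ t.esum (tm d) (fun a b => |u a - u b|) + u (t.pos (tm d)) := by
  induction t with
  | leaf i =>
    intro _ hj _
    have h1 : j = i := Finset.mem_singleton.1 hj
    show u (tm d j) + 0 ≤ 0 + u (tm d i)
    rw [h1, add_zero, zero_add]
  | node z l r ihl ihr =>
    intro hok hj h
    obtain ⟨h1, h2, h3⟩ := hok
    show u (tm d j) + (u z + l.nsum u + r.nsum u) ≤
      |u z - u (l.pos (tm d))| + l.esum (tm d) (fun a b => |u a - u b|) +
        (|u z - u (r.pos (tm d))| + r.esum (tm d) (fun a b => |u a - u b|)) + u z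
    have hj' : j ∈ l.lv ∪ r.lv := hj
    rcases Finset.mem_union.1 hj' with h4 | h4
    · have e1 := ihl h1 h4 h
      have e2 := tv_zero u r fun i hi => h i (by
        rintro rfl
        exact (Finset.disjoint_left.1 h3) h4 hi)
      have e3 := neg_le_abs (u z - u (l.pos (tm d)))
      have e4 := le_abs_self (u z - u (r.pos (tm d)))
      linarith
    · have e1 := ihr h2 h4 h
      have e2 := tv_zero u l fun i hi => h i (by
        rintro rfl
        exact (Finset.disjoint_left.1 h3) hi h4)
      have e3 := neg_le_abs (u z - u (r.pos (tm d)))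
      have e4 := le_abs_self (u z - u (l.pos (tm d)))
      linarith

theorem tv : LG_TV := by
  intro d i0 t hV u j hu
  obtain ⟨hok, hlv⟩ := hV
  show u (tm d j) + t.nsum u ≤ |u (tm d i0) - u (t.pos (tm d))| +
    t.esum (tm d) (fun a b => |u a - u b|)
  by_cases h : j = i0
  · have e1 := tv_zero u t fun i hi => hu i (by
      rintro rfl
      rw [hlv, h] at hi
      exact (Finset.mem_erase.1 hi).1 rfl)
    have e2 := le_abs_self (u (tm d i0) - u (t.pos (tm d)))
    rw [h]
    linarith
  · have hj : j ∈ t.lv := by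
      rw [hlv]
      exact Finset.mem_erase.2 ⟨h, Finset.mem_univ _⟩
    have e1 := tv_one u j t hok hj hu
    have e2 := neg_le_abs (u (tm d i0) - u (t.pos (tm d)))
    have e3 : u (tm d i0) = 0 := hu i0 (fun h' => h h'.symm)
    rw [e3] at e2 ⊢
    linarith

end LG
end H11ST
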